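import Pool.Agent.H29.DF.Targets

/-!
Module XHB: the counting function of a line is measurable and bounded.
-/

set_option autoImplicit false

open MeasureTheory Set Filter NumberField
open scoped Real nonZeroDivisors Matrix MatrixGroups

namespace Pool.Agent.H14.DF

open Pool.Agent.H31.CN Pool.Agent.H89.FM Pool.Agent.H61.FM Pool.Agent.H89.FC Pool.Agent.H95.FC
open Pool.Agent.H89.DF Pool.Agent.H95.DR Pool.Agent.H29.DF

theorem norm_sign_pow_le (x : ℝ) (κ : ℕ) : ‖((Real.sign x : ℝ) : ℂ) ^ κ‖ ≤ 1 := by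
  rw [norm_pow]
  apply pow_le_one₀ (norm_nonneg _)
  rw [Complex.norm_real]
  rcases Real.sign_apply_eq x with h | h | h <;> rw [h] <;> norm_num

/-- a sum with finite support and terms of norm at most one -/
theorem norm_tsum_le_ncard {ι : Type} (p : ι → Prop) [DecidablePred p] (c : ι → ℂ)
    (S : Set ι) (hS : S.Finite) (hp : ∀ i, p i → i ∈ S) (hc : ∀ i, ‖c i‖ ≤ 1) :
    ‖∑' i, if p i then c i else 0‖ ≤ S.ncard := by
  rw [tsum_eq_sum (s := hS.toFinset)]
  · refine (norm_sum_le _ _).trans ?_
    calc ∑ i ∈ hS.toFinset, ‖if p i then c i else 0‖ ≤ ∑ i ∈ hS.toFinset, (1 : ℝ) := by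
          apply Finset.sum_le_sum
          intro i _
          by_cases h : p i
          · rw [if_pos h]
            exact hc i
          · rw [if_neg h, norm_zero]
            exact zero_le_one
      _ = S.ncard := by
          rw [Finset.sum_const, nsmul_eq_mul, mul_one, Set.ncard_eq_toFinset_card S hS]
  · intro i hi
    rw [if_neg]
    intro h
    exact hi (hS.mem_toFinset.2 (hp i h))

theorem pf_XHB (hXSP : T_XSP) : T_XHB := by
  classical
  intro K _ _ D f σ σ' hRQ hf R c κ N g B hB hg V hV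
  have hB1 : 1 / B ≤ 1 := by
    rw [div_le_one (by linarith)]
    exact hB
  constructor
  · unfold Hx
    refine Measurable.tsum fun v => ?_
    refine Measurable.ite ?_ measurable_const measurable_const
    have h1 : {τ : ℝ | Lx f N (R.Q c) V v ∧ 0 ≤ τ + lg σ σ' (lv K (R.α c) (R.β c) v) ∧
        τ + lg σ σ' (lv K (R.α c) (R.β c) v) < 1 / B} =
        {_τ : ℝ | Lx f N (R.Q c) V v} ∩
          ({τ : ℝ | 0 ≤ τ + lg σ σ' (lv K (R.α c) (R.β c) v)} ∩
            {τ : ℝ | τ + lg σ σ' (lv K (R.α c) (R.β c) v) < 1 / B}) := rfl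
    rw [h1]
    exact (MeasurableSet.const _).inter
      ((measurableSet_le measurable_const (measurable_id.add_const _)).inter
        (measurableSet_lt (measurable_id.add_const _) measurable_const))
  · intro τ
    obtain ⟨hfin, hcard⟩ := hXSP K D f σ σ' hRQ hf R c N τ V hV
    refine le_trans ?_ hcard
    unfold Hx
    refine norm_tsum_le_ncard _ _ _ hfin ?_ ?_
    · rintro v ⟨h1, h2, h3⟩
      exact ⟨h1, h2, h3.trans_le hB1⟩
    · intro v
      rw [norm_mul]
      exact mul_le_one₀ (hg _) (norm_nonneg _) (norm_sign_pow_le _ κ)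

end Pool.Agent.H14.DF
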