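import Pool.Agent.H29.DF.Targets
import Pool.Agent.H14.DF.XHB

/-!
Module XHI: unfolding the counting function of a line.
-/

set_option autoImplicit false

open MeasureTheory Set Filter NumberField
open scoped Real nonZeroDivisors Matrix MatrixGroups

namespace Pool.Agent.H14.DF

open Pool.Agent.H31.CN Pool.Agent.H89.FM Pool.Agent.H61.FM Pool.Agent.H89.FC Pool.Agent.H95.FC
open Pool.Agent.H89.DF Pool.Agent.H95.DR Pool.Agent.H29.DF

/-- a number with bounded square is bounded -/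
theorem le_of_sq_bd {p X Y : ℝ} (hX : 0 ≤ X) (hY : 0 ≤ Y) (h : p ^ 2 ≤ X) : p ≤ 1 + X + Y := by
  by_contra hc
  push Not at hc
  nlinarith

/-- there are finitely many vectors on a line with bounded `lg` -/
theorem fin_window (hEMB : T_EMB) {K : Type} [Field K] [NumberField K] {D f : ℕ}
    {σ σ' : K →+* ℝ} (hRQ : RQ K D σ σ') (I : Ideal (𝓞 K)) (α β : 𝓞 K) (Q : QF)
    (hob : OBr σ σ' I α β Q) (N : ℕ) (V : ℤ × ℤ) (x y : ℝ) :
    {v : ℤ × ℤ | Lx f N Q V v ∧ x ≤ lg σ σ' (lv K α β v) ∧ lg σ σ' (lv K α β v) ≤ y}.Finite := by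
  obtain ⟨-, -, hfin⟩ := hEMB K D σ σ' hRQ
  set M : ℝ := (Ideal.absNorm I : ℝ) * N with hM
  have hM0 : 0 ≤ M := by positivity
  set X : ℝ := M * Real.exp y with hX
  set Y : ℝ := M * Real.exp (-x) with hY
  have hX0 : 0 ≤ X := by positivity
  have hY0 : 0 ≤ Y := by positivity
  have hinj : Function.Injective fun v : ℤ × ℤ => lv K α β v := by
    intro v w hvw
    have h1 : lv K α β (v - w) = 0 := by
      have h2 : lv K α β v = lv K α β w := hvw
      unfold lv at h2 ⊢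
      rw [Prod.fst_sub, Prod.snd_sub]
      push_cast
      linear_combination h2
    exact sub_eq_zero.1 (hob.inj _ h1)
  refine ((hfin (1 + X + Y)).preimage (f := fun v : ℤ × ℤ => lv K α β v) hinj.injOn).subset ?_
  rintro v ⟨hL, h1, h2⟩
  set a : 𝓞 K := lv K α β v with ha
  have ha0 : a ≠ 0 := fun h => hL.ne (hob.inj v h)
  have haK : (a : K) ≠ 0 := by
    simpa using ha0
  have hs : σ (a : K) ≠ 0 := (map_ne_zero σ).2 haK
  have hs' : σ' (a : K) ≠ 0 := (map_ne_zero σ').2 haK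
  have hp : 0 < |σ (a : K)| := abs_pos.2 hs
  have hq : 0 < |σ' (a : K)| := abs_pos.2 hs'
  have hval : |σ (a : K)| * |σ' (a : K)| ≤ M := by
    rw [← abs_mul, hob.nrm v, abs_mul, hM]
    have h3 : |(Ideal.absNorm I : ℝ)| = Ideal.absNorm I := abs_of_nonneg (Nat.cast_nonneg _)
    rw [h3]
    apply mul_le_mul_of_nonneg_left _ (Nat.cast_nonneg _)
    have h4 := hL.sq
    unfold Sq at h4
    have h5 := (Finset.mem_Icc.1 (Finset.mem_filter.1 h4).1).2
    rw [← Int.cast_abs, ← Int.natCast_natAbs, Int.cast_natCast]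
    exact_mod_cast h5
  have hlg : lg σ σ' a = Real.log (|σ (a : K)| / |σ' (a : K)|) := by
    unfold lg
    rw [abs_div]
  have hr : 0 < |σ (a : K)| / |σ' (a : K)| := div_pos hp hq
  have h3 : |σ (a : K)| / |σ' (a : K)| ≤ Real.exp y := by
    rw [← Real.log_le_iff_le_exp hr, ← hlg]
    exact h2
  have h4 : |σ' (a : K)| / |σ (a : K)| ≤ Real.exp (-x) := by
    have h5 : |σ' (a : K)| / |σ (a : K)| = (|σ (a : K)| / |σ' (a : K)|)⁻¹ := by
      rw [inv_div]
    rw [h5, Real.exp_neg]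
    apply inv_anti₀ (Real.exp_pos _)
    rw [← Real.le_log_iff_exp_le hr, ← hlg]
    exact h1
  constructor
  · apply le_of_sq_bd hX0 hY0
    calc |σ (a : K)| ^ 2 = (|σ (a : K)| * |σ' (a : K)|) * (|σ (a : K)| / |σ' (a : K)|) := by
          field_simp
      _ ≤ M * Real.exp y := mul_le_mul hval h3 hr.le hM0
  · have h6 : 1 + X + Y = 1 + Y + X := by ring
    rw [h6]
    apply le_of_sq_bd hY0 hX0
    calc |σ' (a : K)| ^ 2 = (|σ (a : K)| * |σ' (a : K)|) * (|σ' (a : K)| / |σ (a : K)|) := by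
          field_simp
      _ ≤ M * Real.exp (-x) := mul_le_mul hval h4 (div_pos hq hp).le hM0

theorem norm_exp_neg (x : ℝ) : ‖Complex.exp (-((x : ℂ) * Complex.I))‖ = 1 := by
  have h : -((x : ℂ) * Complex.I) = ((-x : ℝ) : ℂ) * Complex.I := by
    push_cast
    ring
  rw [h, Complex.norm_exp_ofReal_mul_I]

open Classical in
theorem unfold_abs (hUNF : Pool.Agent.H89.DF.T_UNF) (hUNR : Pool.Agent.H89.DF.T_UNR)
    (Ω : Type) [Countable Ω] (E : Ω ≃ Ω) (l : Ω → ℝ) (P ν b : ℝ) (c : Ω → ℂ) (hP : 0 < P)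
    (hb : 0 ≤ b) (hl : ∀ x, l (E x) = l x + P) (hc : ∀ x, c (E x) = c x)
    (hc1 : ∀ x, ‖c x‖ ≤ 1) (hν : Complex.exp (((ν * P : ℝ) : ℂ) * Complex.I) = 1)
    (hfin : {x | 0 ≤ l x ∧ l x < P}.Finite)
    (hfin2 : ∀ τ, {x | 0 ≤ τ + l x ∧ τ + l x < b}.Finite) :
    ∫ τ in (0 : ℝ)..P, (∑' x, if 0 ≤ τ + l x ∧ τ + l x < b then c x else 0) *
        Complex.exp (-(((ν * τ : ℝ) : ℂ) * Complex.I)) =
      (∑' x, if 0 ≤ l x ∧ l x < P then
        Complex.exp (((ν * l x : ℝ) : ℂ) * Complex.I) * c x else 0) *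
        ∫ τ in (0 : ℝ)..b, Complex.exp (-(((ν * τ : ℝ) : ℂ) * Complex.I)) ∧
    ∫ τ in (0 : ℝ)..P, ‖∑' x, if 0 ≤ τ + l x ∧ τ + l x < b then c x else 0‖ ≤
      b * ({x | 0 ≤ l x ∧ l x < P}.ncard : ℝ) := by
  obtain ⟨g, hg⟩ : ∃ g : Ω → ℝ → ℂ, g = fun x => (Ico (0 : ℝ) b).indicator fun _ => c x :=
    ⟨_, rfl⟩
  have hgx : ∀ x τ, g x τ = if 0 ≤ τ ∧ τ < b then c x else 0 := by
    intro x τ
    rw [hg]
    show (Ico (0 : ℝ) b).indicator (fun _ => c x) τ = _
    rw [indicator_apply]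
    rfl
  have hgE : ∀ x, g (E x) = g x := by
    intro x
    rw [hg]
    show (Ico (0 : ℝ) b).indicator (fun _ => c (E x)) = _
    rw [hc]
  have hgi : ∀ x, Integrable (g x) := by
    intro x
    rw [hg]
    show Integrable ((Ico (0 : ℝ) b).indicator fun _ => c x)
    rw [integrable_indicator_iff measurableSet_Ico]
    exact integrableOn_const (by simp)
  have hnx : ∀ x τ, ‖g x τ‖ = (Ico (0 : ℝ) b).indicator (fun _ => ‖c x‖) τ := by
    intro x τ
    rw [hg]
    exact norm_indicator_eq_indicator_norm _ _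
  have hni : ∀ x, ∫ τ : ℝ, ‖g x τ‖ = b * ‖c x‖ := by
    intro x
    simp only [hnx]
    rw [integral_indicator measurableSet_Ico, setIntegral_const]
    simp [hb]
  have hgm : ∀ x, ∫ τ : ℝ, g x τ * Complex.exp (-(((ν * τ : ℝ) : ℂ) * Complex.I)) =
      c x * ∫ τ in (0 : ℝ)..b, Complex.exp (-(((ν * τ : ℝ) : ℂ) * Complex.I)) := by
    intro x
    have h1 : (fun τ : ℝ => g x τ * Complex.exp (-(((ν * τ : ℝ) : ℂ) * Complex.I))) =
        (Ico (0 : ℝ) b).indicator fun τ =>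
          c x * Complex.exp (-(((ν * τ : ℝ) : ℂ) * Complex.I)) := by
      funext τ
      rw [hg]
      show (Ico (0 : ℝ) b).indicator (fun _ => c x) τ * _ = _
      rw [indicator_apply, indicator_apply]
      split_ifs
      · rfl
      · rw [zero_mul]
    rw [h1, integral_indicator measurableSet_Ico, integral_const_mul,
      integral_Ico_eq_integral_Ioc, intervalIntegral.integral_of_le hb]
  have hsup : Function.HasFiniteSupport
      (fun x : Ω => if 0 ≤ l x ∧ l x < P then ∫ τ : ℝ, ‖g x τ‖ else 0) := by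
    refine hfin.subset fun x hx => ?_
    by_contra h
    exact hx (if_neg h)
  have hsum : Summable (fun x : Ω => if 0 ≤ l x ∧ l x < P then ∫ τ : ℝ, ‖g x τ‖ else 0) :=
    summable_of_hasFiniteSupport hsup
  obtain ⟨-, hint, hs⟩ := hUNF Ω E l P ν g hP hl hgE hgi hν hsum
  obtain ⟨-, hint2, hs2⟩ := hUNR Ω E l P (fun x τ => ‖g x τ‖) hP hl
    (fun x => by rw [hgE]) (fun x => (hgi x).norm) (fun x τ => norm_nonneg _) hsum
  have hH : ∀ τ, ∑' x, g x (τ + l x) =
      ∑' x, if 0 ≤ τ + l x ∧ τ + l x < b then c x else 0 := by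
    intro τ
    exact tsum_congr fun x => hgx x _
  simp only [hH] at hint hs
  constructor
  · rw [← hs.tsum_eq, ← tsum_mul_right]
    apply tsum_congr
    intro x
    by_cases h : 0 ≤ l x ∧ l x < P
    · rw [if_pos h, if_pos h, hgm]
      ring
    · rw [if_neg h, if_neg h, zero_mul]
  · have h1 : ∫ τ in (0 : ℝ)..P, ‖∑' x, if 0 ≤ τ + l x ∧ τ + l x < b then c x else 0‖ ≤
        ∫ τ in (0 : ℝ)..P, ∑' x, ‖g x (τ + l x)‖ := by
      refine intervalIntegral.integral_mono_on hP.le ?_ hint2 ?_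
      · have h2 := hint.norm
        refine h2.congr ?_
        intro τ _
        simp only
        rw [norm_mul, norm_exp_neg, mul_one]
      · intro τ _
        rw [← hH τ]
        apply norm_tsum_le_tsum_norm
        apply summable_of_hasFiniteSupport
        refine (hfin2 τ).subset fun x hx => ?_
        by_contra h
        have h' : ¬ (0 ≤ τ + l x ∧ τ + l x < b) := h
        apply hx
        simp only
        rw [hgx, if_neg h', norm_zero]
    refine h1.trans ?_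
    rw [← hs2.tsum_eq, tsum_eq_sum (s := hfin.toFinset)]
    · calc ∑ x ∈ hfin.toFinset, (if 0 ≤ l x ∧ l x < P then ∫ τ : ℝ, ‖g x τ‖ else 0)
          ≤ ∑ x ∈ hfin.toFinset, b := by
            apply Finset.sum_le_sum
            intro x _
            by_cases h : 0 ≤ l x ∧ l x < P
            · rw [if_pos h, hni]
              calc b * ‖c x‖ ≤ b * 1 := mul_le_mul_of_nonneg_left (hc1 x) hb
                _ = b := mul_one b
            · rw [if_neg h]
              exact hb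
        _ = b * ({x | 0 ≤ l x ∧ l x < P}.ncard : ℝ) := by
            rw [Finset.sum_const, nsmul_eq_mul, Set.ncard_eq_toFinset_card _ hfin, mul_comm]
    · intro x hx
      rw [if_neg]
      intro h
      exact hx (hfin.mem_toFinset.2 h)

/-- sums over a subtype -/
theorem tsum_sub {ι : Type} (p q : ι → Prop) [DecidablePred q]
    [DecidablePred fun v => p v ∧ q v] (F : ι → ℂ) :
    ∑' x : {v // p v}, (if q x.1 then F x.1 else 0) = ∑' v, if p v ∧ q v then F v else 0 := by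
  classical
  refine (tsum_subtype {v | p v} (fun v => if q v then F v else 0)).trans ?_
  apply tsum_congr
  intro v
  rw [indicator_apply]
  by_cases hp : p v
  · by_cases hq : q v
    · rw [if_pos (show v ∈ {v | p v} from hp), if_pos hq, if_pos ⟨hp, hq⟩]
    · rw [if_pos (show v ∈ {v | p v} from hp), if_neg hq, if_neg fun h => hq h.2]
  · rw [if_neg (show v ∉ {v | p v} from hp), if_neg fun h => hp h.1]

theorem pf_XHI (hUNF : Pool.Agent.H89.DF.T_UNF) (hUNR : Pool.Agent.H89.DF.T_UNR)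
    (hUAC : Pool.Agent.H95.DR.T_UAC) (hUWN : T_UWN) (hTYR : T_TYR)
    (hEMB : Pool.Agent.H95.DR.T_EMB) : T_XHI := by
  classical
  intro K _ _ D f σ σ' hRQ hf R c κ N ν g B hB hg hν V hV
  set α := R.α c with hα
  set β := R.β c with hβ
  set Q := R.Q c with hQ
  have hob : OBr σ σ' (R.I c : Ideal (𝓞 K)) α β Q := R.ob c
  have hP : 0 < R.P := (hUWN K D f σ σ' hRQ R.η R.un).1
  have hb : (0 : ℝ) ≤ 1 / B := by
    have : 0 < B := by linarith
    positivity
  obtain ⟨E0, hE1, hE2, hE3, hE4, -⟩ := hUAC K σ σ' f (R.I c : Ideal (𝓞 K)) α β Q R.η hf hob R.un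
  have hLx : ∀ v, Lx f N Q V v ↔ Lx f N Q V (E0 v) := by
    intro v
    constructor
    · intro h
      refine ⟨fun h0 => h.ne ((hE2 v).1 h0), (hE3 V v).2 h.lin, ?_⟩
      rw [hE4]
      exact h.sq
    · intro h
      refine ⟨fun h0 => h.ne ((hE2 v).2 h0), (hE3 V v).1 h.lin, ?_⟩
      rw [← hE4]
      exact h.sq
  obtain ⟨l, hl⟩ : ∃ l : ℤ × ℤ → ℝ, l = fun v => lg σ σ' (lv K α β v) := ⟨_, rfl⟩
  have hlx : ∀ v, l v = lg σ σ' (lv K α β v) := fun v => by rw [hl]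
  obtain ⟨w, hw⟩ : ∃ w : ℤ × ℤ → ℂ, w = fun v => g (val Q v).natAbs *
      ((Real.sign (σ (lv K α β v : K) * σ' (lv K α β v : K)) : ℝ) : ℂ) ^ κ := ⟨_, rfl⟩
  have hwx : ∀ v, w v = g (val Q v).natAbs *
      ((Real.sign (σ (lv K α β v : K) * σ' (lv K α β v : K)) : ℝ) : ℂ) ^ κ := fun v => by rw [hw]
  have hlE : ∀ v, v ≠ 0 → l (E0 v) = l v + R.P := by
    intro v hv
    have h1 : lv K α β v ≠ 0 := fun h => hv (hob.inj v h)
    have h2 : ((R.η : (𝓞 K)ˣ) : 𝓞 K) ≠ 0 := Units.ne_zero _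
    rw [hlx, hlx, hE1, ((hTYR K σ σ' κ ν).1 _ _ h2 h1).1, add_comm]
    rfl
  have hwE : ∀ v, w (E0 v) = w v := by
    intro v
    have h3 : ((lv K α β (E0 v) : 𝓞 K) : K) =
        ((R.η : 𝓞 K) : K) * ((lv K α β v : 𝓞 K) : K) := by
      rw [hE1]
      exact map_mul (algebraMap (𝓞 K) K) _ _
    have h4 : σ (lv K α β (E0 v) : K) * σ' (lv K α β (E0 v) : K) =
        σ (lv K α β v : K) * σ' (lv K α β v : K) := by
      rw [h3, map_mul, map_mul]
      have h5 := R.un.nrm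
      linear_combination (σ (lv K α β v : K) * σ' (lv K α β v : K)) * h5
    rw [hwx, hwx, hE4, h4]
  have hw1 : ∀ v, ‖w v‖ ≤ 1 := by
    intro v
    rw [hwx, norm_mul]
    exact mul_le_one₀ (hg _) (norm_nonneg _) (norm_sign_pow_le _ κ)
  have hfw : ∀ x y : ℝ, {v : {v // Lx f N Q V v} | x ≤ l v.1 ∧ l v.1 ≤ y}.Finite := by
    intro x y
    refine ((fin_window (f := f) hEMB hRQ (R.I c : Ideal (𝓞 K)) α β Q hob N V x y).preimage
      (f := Subtype.val) Subtype.val_injective.injOn).subset ?_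
    rintro ⟨v, hv⟩ ⟨h1, h2⟩
    rw [hlx] at h1 h2
    exact ⟨hv, h1, h2⟩
  have hWd : ∀ v, Lx f N Q V v → (Wd σ σ' α β R.η 0 v ↔ 0 ≤ l v ∧ l v < R.P) := by
    intro v hv
    unfold Wd
    rw [zero_add, hlx]
    exact ⟨fun h => h.2, fun h => ⟨hv.ne, h⟩⟩
  have hset : {v : ℤ × ℤ | Lx f N Q V v ∧ Wd σ σ' α β R.η 0 v} =
      Subtype.val '' {v : {v // Lx f N Q V v} | 0 ≤ l v.1 ∧ l v.1 < R.P} := by
    ext v
    constructor
    · rintro ⟨h1, h2⟩
      exact ⟨⟨v, h1⟩, (hWd v h1).1 h2, rfl⟩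
    · rintro ⟨⟨v, h1⟩, h2, rfl⟩
      exact ⟨h1, (hWd v h1).2 h2⟩
  have hfin1 : {v : {v // Lx f N Q V v} | 0 ≤ l v.1 ∧ l v.1 < R.P}.Finite :=
    (hfw 0 R.P).subset fun v hv => ⟨hv.1, hv.2.le⟩
  have hfin2 : ∀ τ : ℝ, {v : {v // Lx f N Q V v} | 0 ≤ τ + l v.1 ∧ τ + l v.1 < 1 / B}.Finite :=
    fun τ => (hfw (-τ) (1 / B - τ)).subset fun v hv =>
      ⟨by linarith [hv.1], by linarith [hv.2]⟩
  obtain ⟨hA, hN⟩ := unfold_abs hUNF hUNR {v // Lx f N Q V v} (E0.subtypeEquiv hLx)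
    (fun v => l v.1) R.P ν (1 / B) (fun v => w v.1) hP hb (fun v => hlE v.1 v.2.ne)
    (fun v => hwE v.1) (fun v => hw1 v.1) hν hfin1 hfin2
  have hHx : ∀ τ : ℝ, (∑' v : {v // Lx f N Q V v},
      if 0 ≤ τ + l v.1 ∧ τ + l v.1 < 1 / B then w v.1 else 0) =
      Hx σ σ' κ f N g B α β Q V τ := by
    intro τ
    rw [tsum_sub (fun v => Lx f N Q V v) (fun v => 0 ≤ τ + l v ∧ τ + l v < 1 / B) w]
    unfold Hx
    apply tsum_congr
    intro v
    rw [hlx, hwx]
  simp only [hHx] at hA hN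
  refine ⟨?_, ?_, ?_⟩
  · rw [hset]
    exact hfin1.image _
  · rw [hA]
    congr 1
    rw [tsum_sub (fun v => Lx f N Q V v) (fun v => 0 ≤ l v ∧ l v < R.P)
      (fun v => Complex.exp (((ν * l v : ℝ) : ℂ) * Complex.I) * w v)]
    apply tsum_congr
    intro v
    by_cases hv : Lx f N Q V v
    · by_cases hv2 : 0 ≤ l v ∧ l v < R.P
      · rw [if_pos ⟨hv, hv2⟩, if_pos ⟨hv, (hWd v hv).2 hv2⟩, hwx, tyr, hlx]
        ring
      · rw [if_neg fun h => hv2 h.2, if_neg fun h => hv2 ((hWd v hv).1 h.2)]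
    · rw [if_neg fun h => hv h.1, if_neg fun h => hv h.1]
  · rw [hset, Set.ncard_image_of_injective _ Subtype.val_injective]
    exact hN

end Pool.Agent.H14.DF
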